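import Pool.Agent.H230Z.CayMain

set_option autoImplicit false

namespace Pool.Agent.Results.MP_c7d842_co.BCHCounterexample

open Pool.Agent.H230Z.Cay

/-- The modified Cayley conjecture is false: some `d`-dimensional lattice polytope of degree
`s ≥ 1` with `d > (17 s - 4) / 6` is not a Cayley polytope of `d + 1 - ⌊(17 s - 4) / 6⌋` or more
lattice polytopes (the witness is a simplex with `d = 126`, `s = 36`, built from the dual of the
double-error-correcting BCH code of length 127). -/
theorem result : ∃ (d s : ℕ) (P : Set (Fin d → ℝ)), IsLatticePolytope P ∧ affineSpan ℝ P = ⊤ ∧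
    degree P = s ∧ 1 ≤ s ∧ (17 * (s : ℚ) - 4) / 6 < d ∧
    ∀ c : ℕ, (d : ℤ) + 1 - ⌊(17 * (s : ℚ) - 4) / 6⌋ ≤ c → ¬ IsCayley P c :=
  main

end Pool.Agent.Results.MP_c7d842_co.BCHCounterexample
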